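import Pool.Agent.Helper2_Pak.StmtsK

/-!
# K4: the position of a lever
-/

namespace Pool.Agent.Helper2_Pak.H73

open Pool.Agent.Helper2_Pack (Motion)

theorem pit_nonneg (a b e : ℝ) : 0 ≤ pit a b e := le_max_left _ _

theorem slit_nonneg (t d e : ℝ) : 0 ≤ slit t d e := le_max_left _ _

theorem chamf_nonneg (t w e : ℝ) : 0 ≤ chamf t w e := le_max_left _ _

theorem bump_nonneg (t e : ℝ) : 0 ≤ bump t e := le_max_left _ _

theorem dent_nonneg (t e : ℝ) : 0 ≤ dent t e := le_max_left _ _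

/-- small powers -/
theorem tpow {t : ℝ} (ht : 0 < t) (ht1 : t ≤ 1 / 2 ^ 60) :
    0 < t ^ 2 ∧ 0 < t ^ 3 ∧ 0 < t ^ 4 ∧ 0 < t ^ 6 ∧ 0 < t ^ 7 ∧ 0 < t ^ 8 ∧
    t ≤ 1 / 10 ^ 6 ∧ t ^ 2 ≤ 1 / 10 ^ 6 * t ∧ t ^ 3 ≤ 1 / 10 ^ 6 * t ^ 2 ∧
    t ^ 4 ≤ 1 / 10 ^ 6 * t ^ 3 ∧ t ^ 6 ≤ 1 / 10 ^ 6 * t ^ 3 ∧ t ^ 7 ≤ 1 / 10 ^ 6 * t ^ 6 ∧
    t ^ 8 ≤ 1 / 10 ^ 6 * t ^ 7 := by
  have h0 : t ≤ 1 / 10 ^ 6 := ht1.trans (by norm_num)
  have h2 : 0 < t ^ 2 := by positivity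
  have h3 : 0 < t ^ 3 := by positivity
  have h4 : 0 < t ^ 4 := by positivity
  have h5 : 0 < t ^ 5 := by positivity
  have h6 : 0 < t ^ 6 := by positivity
  have h7 : 0 < t ^ 7 := by positivity
  have h8 : 0 < t ^ 8 := by positivity
  have e2 : t ^ 2 ≤ 1 / 10 ^ 6 * t := by nlinarith only [ht1, ht]
  have e3 : t ^ 3 ≤ 1 / 10 ^ 6 * t ^ 2 := by nlinarith only [ht1]
  have e4 : t ^ 4 ≤ 1 / 10 ^ 6 * t ^ 3 := by nlinarith only [e2]
  have e5 : t ^ 5 ≤ 1 / 10 ^ 6 * t ^ 4 := by nlinarith only [e3]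
  have e6 : t ^ 6 ≤ 1 / 10 ^ 6 * t ^ 5 := by nlinarith
  have e7 : t ^ 7 ≤ 1 / 10 ^ 6 * t ^ 6 := by nlinarith
  have e8 : t ^ 8 ≤ 1 / 10 ^ 6 * t ^ 7 := by nlinarith
  refine ⟨h2, h3, h4, h6, h7, h8, h0, e2, e3, e4, ?_, e7, e8⟩
  linarith only [h8, e4, e5, e6, e7, e8]

/-- above a line of small slope through the tip of a bump -/
theorem above_line {m n a b : ℝ} (hn : |m| ≤ n) (hn0 : 0 < n) (h : 0 ≤ m * a + n * b) :
    -|a| ≤ b := by
  by_contra hcon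
  push Not at hcon
  have h1 : m * a ≤ n * |a| := by
    calc m * a ≤ |m * a| := le_abs_self _
      _ = |m| * |a| := abs_mul _ _
      _ ≤ n * |a| := mul_le_mul_of_nonneg_right hn (abs_nonneg a)
  have h2 : n * b < n * (-|a|) := mul_lt_mul_of_pos_left hcon hn0
  linarith

/-- the spike -/
theorem spike {t : ℝ} (ht : 0 < t) (ht1 : t ≤ 1 / 2 ^ 60) {p d : ℝ} (hp0 : 0 ≤ p)
    (hp1 : p ≤ 2 * t ^ 3) (hd : d ≤ 1) {c s : ℝ} (hc : 1 - t ^ 8 ≤ c) (hc2 : c ≤ 1)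
    (hs : |s| ≤ 5 * t ^ 8) {X Y : ℝ} (hY : Y ≤ d * (|X| / (2 * t ^ 7))) :
    s * X + c * Y ≤ (1 + t / 4 - p) * (|c * X - s * Y| / t ^ 7) := by
  obtain ⟨h2, h3, h4, h6, h7, h8, t1, t2, t3, t4, t6, t7, t8⟩ := tpow ht ht1
  have hS' : 1 - 1 / 100 ≤ (1 + t / 4 - p) := by linarith
  have hc9 : 99 / 100 ≤ c := by linarith only [ht1, hc, t2, t3, t6, t7, t8]
  suffices h : (s * X + c * Y) * t ^ 7 ≤ (1 + t / 4 - p) * |c * X - s * Y| by
    have h5 : s * X + c * Y ≤ (1 + t / 4 - p) * |c * X - s * Y| / t ^ 7 := by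
      rw [le_div_iff₀ h7]
      exact h
    rw [← mul_div_assoc]
    exact h5
  have hX0 := abs_nonneg X
  have hYX : Y * (2 * t ^ 7) ≤ |X| := by
    have h5 : Y ≤ (d * |X|) / (2 * t ^ 7) := by
      rw [mul_div_assoc]
      exact hY
    rw [le_div_iff₀ (by positivity)] at h5
    nlinarith only [h5, hd, hX0]
  have hsX : s * X ≤ 5 * t ^ 8 * |X| := by
    calc s * X ≤ |s * X| := le_abs_self _
      _ = |s| * |X| := abs_mul _ _
      _ ≤ 5 * t ^ 8 * |X| := mul_le_mul_of_nonneg_right hs (abs_nonneg _)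
  have habs : |c * X - s * Y| ≥ c * |X| - 5 * t ^ 8 * |Y| := by
    have h5 : |c * X| - |s * Y| ≤ |c * X - s * Y| := abs_sub_abs_le_abs_sub _ _
    rw [abs_mul, abs_mul, abs_of_nonneg (by linarith : 0 ≤ c)] at h5
    have h6 : |s| * |Y| ≤ 5 * t ^ 8 * |Y| := mul_le_mul_of_nonneg_right hs (abs_nonneg _)
    linarith only [h5, h6]
  have hcX : (99 / 100) * |X| ≤ c * |X| := mul_le_mul_of_nonneg_right hc9 (abs_nonneg _)
  have h15 : 5 * t ^ 8 * |X| * t ^ 7 ≤ (1 / 100) * |X| := by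
    have h12 : 5 * t ^ 8 * t ^ 7 ≤ 1 / 100 := by nlinarith
    have h13 := mul_le_mul_of_nonneg_right h12 (abs_nonneg X)
    linarith only [h13]
  have hfin : (98 / 100) * |X| ≤ |c * X - s * Y| →
      (97 / 100) * |X| ≤ (1 + t / 4 - p) * |c * X - s * Y| := by
    intro h8
    have h10 : (1 + t / 4 - p) * ((98 / 100) * |X|) ≤
        (1 + t / 4 - p) * |c * X - s * Y| := mul_le_mul_of_nonneg_left h8 (by linarith)
    have h11 : (1 - 1 / 100) * ((98 / 100) * |X|) ≤ (1 + t / 4 - p) * ((98 / 100) * |X|) :=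
      mul_le_mul_of_nonneg_right hS' (by positivity)
    linarith
  by_cases hY0 : 0 ≤ Y
  · rw [abs_of_nonneg hY0] at habs
    have h17 : 5 * t ^ 8 * Y ≤ (1 / 100) * |X| := by
      have e : 5 * t ^ 8 * Y = (5 / 2) * t * (Y * (2 * t ^ 7)) := by ring
      have e1 : (5 / 2) * t * (Y * (2 * t ^ 7)) ≤ (5 / 2) * t * |X| :=
        mul_le_mul_of_nonneg_left hYX (by positivity)
      have e2 : (5 / 2) * t * |X| ≤ (1 / 100) * |X| :=
        mul_le_mul_of_nonneg_right (by linarith only [ht1]) hX0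
      linarith only [e1, e2]
    have h18 := hfin (by linarith only [habs, hcX, h17])
    have h9 : (s * X + c * Y) * t ^ 7 ≤ 5 * t ^ 8 * |X| * t ^ 7 + |X| / 2 := by
      have h10 : c * Y ≤ Y := by nlinarith only [hc2, hY0]
      have h11 : (s * X + c * Y) * t ^ 7 ≤ (5 * t ^ 8 * |X| + Y) * t ^ 7 :=
        mul_le_mul_of_nonneg_right (by linarith only [hsX, h10]) h7.le
      linarith only [hYX, h11]
    linarith only [hX0, h15, h18, h9]
  · push Not at hY0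
    by_cases hneg : s * X + c * Y ≤ 0
    · have h5 : (s * X + c * Y) * t ^ 7 ≤ 0 := mul_nonpos_of_nonpos_of_nonneg hneg h7.le
      exact h5.trans (mul_nonneg (by linarith only [hp1, h8, t2, t3, t6, t7, t8]) (abs_nonneg _))
    · push Not at hneg
      rw [abs_of_neg hY0] at habs
      have h6 : -Y ≤ |X| := by
        have h7 : c * (-Y) ≤ 5 * t ^ 8 * |X| := by linarith only [hsX, hneg]
        have h8 : (99 / 100) * (-Y) ≤ c * (-Y) := mul_le_mul_of_nonneg_right hc9 (by linarith only [hY0])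
        have h9 : 5 * t ^ 8 * |X| ≤ 1 / 2 * |X| := mul_le_mul_of_nonneg_right (by linarith only [ht1, t2, t3, t6, t7, t8]) hX0
        linarith only [hsX, hY0, hneg, h8, h9]
      have h16 : 5 * t ^ 8 * (-Y) ≤ (1 / 100) * |X| := by
        have h11 : 5 * t ^ 8 * (-Y) ≤ 5 * t ^ 8 * |X| :=
          mul_le_mul_of_nonneg_left h6 (by positivity)
        have h12 : 5 * t ^ 8 * |X| ≤ (1 / 100) * |X| :=
          mul_le_mul_of_nonneg_right (by linarith only [ht1, t2, t3, t6, t7, t8]) (abs_nonneg _)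
        linarith only [h11, h12]
      have h18 := hfin (by linarith only [habs, hcX, h16])
      have h9 : (s * X + c * Y) * t ^ 7 ≤ 5 * t ^ 8 * |X| * t ^ 7 := by
        refine mul_le_mul_of_nonneg_right ?_ h7.le
        have : c * Y ≤ 0 := mul_nonpos_of_nonneg_of_nonpos (by linarith only [ht1, hc, t2, t3, t6, t7, t8]) hY0.le
        linarith only [hsX, this]
      linarith only [h15, hY0, h6, h18, h9]

/-- near its centre a pit is bounded by its roof -/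
theorem pit_roof {t g e D : ℝ} (ht : 0 < t) (ht1 : t ≤ 1 / 2 ^ 60) (hg : g = 1 ∨ g = -1)
    (he : |e| ≤ t ^ 3) (hD : pit (t ^ 3 / 2) (g * t ^ 3) e ≤ D) : t ^ 3 / 2 + g * t ^ 3 * e ≤ D := by
  obtain ⟨h2, h3, h4, h6, h7, h8, t1, t2, t3, t4, t6, t7, t8⟩ := tpow ht ht1
  have h := (le_max_right _ _).trans hD
  obtain ⟨e1, e2⟩ := abs_le.1 he
  have hge : |g * t ^ 3 * e| ≤ t ^ 3 * t ^ 3 := by
    have : |g| = 1 := by rcases hg with rfl | rfl <;> simp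
    rw [abs_mul, abs_mul, this, one_mul, abs_of_pos h3]
    exact mul_le_mul_of_nonneg_left he h3.le
  obtain ⟨ge1, ge2⟩ := abs_le.1 hge
  have h33 : t ^ 3 * t ^ 3 ≤ 1 / 100 * t ^ 3 := mul_le_mul_of_nonneg_right (by linarith only [ht1, t2, t3]) h3.le
  rw [min_le_iff, min_le_iff] at h
  rcases h with h | h | h
  · exact h
  · have hb : t ^ 3 * (49 / 100) ≤ t ^ 3 / 2 + g * t ^ 3 / 128 := by
      rcases hg with rfl | rfl <;> linarith only [h8, t6, t7, t8]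
    have h5 : t ^ 3 * (49 / 100) * (19 / 10) ≤ (t ^ 3 / 2 + g * t ^ 3 / 128) * (2 - 128 * e) :=
      mul_le_mul hb (by linarith only [ht1, t2, t3, e2]) (by norm_num) (by linarith only [h8, t6, t7, t8, hb])
    linarith only [h8, t6, t7, t8, ge2, h, h5]
  · have hb : t ^ 3 * (49 / 100) ≤ t ^ 3 / 2 - g * t ^ 3 / 128 := by
      rcases hg with rfl | rfl <;> linarith only [h8, t6, t7, t8]
    have h5 : t ^ 3 * (49 / 100) * (19 / 10) ≤ (t ^ 3 / 2 - g * t ^ 3 / 128) * (2 + 128 * e) :=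
      mul_le_mul hb (by linarith only [ht1, t2, t3, e1]) (by norm_num) (by linarith only [h8, t6, t7, t8, hb])
    linarith

/-- a port -/
theorem port {t : ℝ} (ht : 0 < t) (ht1 : t ≤ 1 / 2 ^ 60) {g xj Yj c s : ℝ}
    (hg : g = 1 ∨ g = -1) (hY : |Yj| ≤ t ^ 8) (hcs : c ^ 2 + s ^ 2 = 1) (hc : 1 - t ^ 8 ≤ c)
    (hc2 : c ≤ 1) (hs : |s| ≤ 5 * t ^ 8)
    {σ' : ℝ} (hσ : σ' * t ^ 3 / 4 = g * t ^ 3 * xj)
    (hP : (-s - g * t ^ 3 * c) * xj + (c - g * t ^ 3 * s) * (σ' * t ^ 3 / 4 + Yj) ≤ 0)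
    {X Y ξ η : ℝ} (hξ : ξ = c * X - s * Y) (hη : η = s * X + c * Y)
    (hX : |X| ≤ 1) (hYa : |Y| ≤ 1)
    (hD : pit (t ^ 3 / 2) (g * t ^ 3) (X - xj) ≤ Y + (t ^ 3 / 2 - σ' * t ^ 3 / 4))
    (hD0 : 0 ≤ Y + (t ^ 3 / 2 - σ' * t ^ 3 / 4)) :
    Yj + bump t (ξ - xj) ≤ η + (t ^ 3 - σ' * t ^ 3 / 4) := by
  obtain ⟨h2, h3, h4, h6, h7, h8, t1, t2, t3, t4, t6, t7, t8⟩ := tpow ht ht1
  obtain ⟨y1, y2⟩ := abs_le.1 hY
  obtain ⟨s1, s2⟩ := abs_le.1 hs
  have hg1 : |g| = 1 := by rcases hg with rfl | rfl <;> simp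
  -- the displacement is small
  have hxz : |ξ - X| ≤ 6 * t ^ 8 := by
    have h5 : ξ - X = -((1 - c) * X) - s * Y := by rw [hξ]; ring
    rw [h5]
    calc |-((1 - c) * X) - s * Y| ≤ |-((1 - c) * X)| + |s * Y| := abs_sub _ _
      _ = (1 - c) * |X| + |s| * |Y| := by
          rw [abs_neg, abs_mul, abs_mul, abs_of_nonneg (by linarith only [hc2] : 0 ≤ 1 - c)]
      _ ≤ t ^ 8 * 1 + 5 * t ^ 8 * 1 := by
          refine add_le_add ?_ ?_
          · exact mul_le_mul (by linarith only [hc]) hX (abs_nonneg _) h8.le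
          · exact mul_le_mul hs hYa (abs_nonneg _) (by linarith only [h8])
      _ = 6 * t ^ 8 := by ring
  have hyz : |η - Y| ≤ 6 * t ^ 8 := by
    have h5 : η - Y = s * X - (1 - c) * Y := by rw [hη]; ring
    rw [h5]
    calc |s * X - (1 - c) * Y| ≤ |s * X| + |(1 - c) * Y| := abs_sub _ _
      _ = |s| * |X| + (1 - c) * |Y| := by
          rw [abs_mul, abs_mul, abs_of_nonneg (by linarith only [hc2] : 0 ≤ 1 - c)]
      _ ≤ 5 * t ^ 8 * 1 + t ^ 8 * 1 := by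
          refine add_le_add ?_ ?_
          · exact mul_le_mul hs hX (abs_nonneg _) (by linarith only [h8])
          · exact mul_le_mul (by linarith only [hc]) hYa (abs_nonneg _) h8.le
      _ = 6 * t ^ 8 := by ring
  obtain ⟨xz1, xz2⟩ := abs_le.1 hxz
  obtain ⟨yz1, yz2⟩ := abs_le.1 hyz
  have hlow : t ^ 3 / 2 - 6 * t ^ 8 ≤ η + (t ^ 3 - σ' * t ^ 3 / 4) := by linarith only [hD0, yz1]
  suffices h : Yj + (t ^ 3 - |ξ - xj|) ≤ η + (t ^ 3 - σ' * t ^ 3 / 4) by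
    have : bump t (ξ - xj) ≤ η + (t ^ 3 - σ' * t ^ 3 / 4) - Yj := by
      unfold bump
      exact max_le (by linarith only [hD0, h8, t6, t7, t8, y2, yz1]) (by linarith only [h])
    linarith only [this]
  by_cases he : |X - xj| ≤ t ^ 3
  · have h5 := pit_roof ht ht1 hg he hD
    -- `Y ≥ b X`
    have h6' : 0 ≤ Y - g * t ^ 3 * X := by
      have : g * t ^ 3 * (X - xj) = g * t ^ 3 * X - σ' * t ^ 3 / 4 := by rw [hσ]; ring
      linarith only [hσ, h5]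
    have h7' : Y - g * t ^ 3 * X = (-s - g * t ^ 3 * c) * ξ + (c - g * t ^ 3 * s) * η := by
      rw [hξ, hη]
      have e3 : (-s - g * t ^ 3 * c) * (c * X - s * Y) + (c - g * t ^ 3 * s) * (s * X + c * Y)
          = (c ^ 2 + s ^ 2) * (Y - g * t ^ 3 * X) := by ring
      rw [e3, hcs, one_mul]
    have h8' : 0 ≤ (-s - g * t ^ 3 * c) * (ξ - xj) +
        (c - g * t ^ 3 * s) * (η - (σ' * t ^ 3 / 4 + Yj)) := by
      rw [h7'] at h6'
      linarith only [hP, h6']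
    have hgc : |g * t ^ 3 * c| ≤ t ^ 3 := by
      rw [abs_mul, abs_mul, hg1, one_mul, abs_of_pos h3, abs_of_nonneg (by linarith only [ht1, hc, t2, t3, t6, t7, t8] : 0 ≤ c)]
      nlinarith only [hc2, h3]
    have hgs : |g * t ^ 3 * s| ≤ t ^ 3 := by
      rw [abs_mul, abs_mul, hg1, one_mul, abs_of_pos h3]
      have : |s| ≤ 1 := by linarith only [ht1, hs, t2, t3, t6, t7, t8]
      nlinarith only [ht1, hc, hc2, h3, h6, h7, t3, hs]
    obtain ⟨gc1, gc2⟩ := abs_le.1 hgc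
    obtain ⟨gs1, gs2⟩ := abs_le.1 hgs
    have h9 := above_line (m := -s - g * t ^ 3 * c) (n := c - g * t ^ 3 * s)
      (a := ξ - xj) (b := η - (σ' * t ^ 3 / 4 + Yj))
      (by rw [abs_le]; constructor <;> linarith only [ht1, hc, t2, t3, t6, t7, t8, s2, gc2, gs2, s1, gc1]) (by linarith only [ht1, hc, t2, t3, t6, t7, t8, gs2]) h8'
    linarith only [h9]
  · push Not at he
    have h5 : |X - xj| ≤ |ξ - xj| + 6 * t ^ 8 := by
      have : X - xj = (ξ - xj) - (ξ - X) := by ring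
      rw [this]
      exact (abs_sub _ _).trans (by linarith only [hxz])
    linarith only [hD0, h8, t6, t7, t8, y2, yz1, he, h5]

theorem k4_core {t Y₁ Y₂ : ℝ} {g : ℝ} (hg : g = 1 ∨ g = -1) (ht : 0 < t) (ht1 : t ≤ 1 / 2 ^ 60)
    (hY1 : |Y₁| ≤ t ^ 8) (hY2 : |Y₂| ≤ t ^ 8) {c s : ℝ} (hcs : c ^ 2 + s ^ 2 = 1)
    (hc : 1 - t ^ 8 ≤ c) (hs : |s| ≤ 5 * t ^ 8)
    (hP1 : (-s + g * t ^ 3 * c) * (-(1 / 4)) + (c + g * t ^ 3 * s) * (g * t ^ 3 / 4 + Y₁) ≤ 0)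
    (hP2 : (-s - g * t ^ 3 * c) * (1 / 4) + (c - g * t ^ 3 * s) * (g * t ^ 3 / 4 + Y₂) ≤ 0)
    (w : ℂ) (hw : w ∈ shape t) (x y : ℝ)
    (hx : x = c * (w.im + g / 16) - s * (1 / 2 - (t ^ 3 / 2 - g * t ^ 3 / 4) - w.re) +
      (1 / 2 - g / 16))
    (hy : y = s * (w.im + g / 16) + c * (1 / 2 - (t ^ 3 / 2 - g * t ^ 3 / 4) - w.re) +
      (t ^ 3 - g * t ^ 3 / 4)) :
    -(t / 8) ≤ x ∧ x ≤ 1 + t / 8 ∧ t ^ 3 / 4 ≤ y ∧ y ≤ 1 + t / 8 ∧
    Y₁ + bump t (x - ((1 / 2 - g / 16) - 1 / 4)) ≤ y ∧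
    Y₂ + bump t (x - ((1 / 2 - g / 16) + 1 / 4)) ≤ y ∧
    y ≤ (t ^ 3 - g * t ^ 3 / 4) +
      (1 + t / 4 - (t ^ 3 - g * t ^ 3 / 4)) * (|x - (1 / 2 - g / 16)| / t ^ 7) := by
  obtain ⟨h2, h3, h4, h6, h7, h8, t1, t2, t3, t4, t6, t7, t8⟩ := tpow ht ht1
  have hc2 : c ≤ 1 := by nlinarith only [hcs, sq_nonneg s]
  obtain ⟨z1, z2, z3, z4⟩ := hw
  unfold lo at z1
  unfold hi at z2
  unfold lf at z3
  unfold rt at z4
  -- crude bounds
  have hb : ∀ e, bump t e ≤ t ^ 3 := fun e => by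
    unfold bump
    exact max_le h3.le (by have := abs_nonneg e; linarith only [this])
  have w1 : -hh t ≤ w.im := by
    linarith only [z1, dent_nonneg t (w.re + 1 / 4), dent_nonneg t (w.re - 1 / 4),
      chamf_nonneg t (1 / 2) w.re]
  have w2 : w.im ≤ hh t + t ^ 3 := by
    have h5 := hb (w.re + 1 / 4)
    have h6 := hb (w.re - 1 / 4)
    have h7 := chamf_nonneg t (1 / 2) w.re
    by_cases hw0 : 0 ≤ w.re
    · have h8 : bump t (w.re + 1 / 4) = 0 := by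
        unfold bump
        rw [abs_of_nonneg (by linarith only [hw0])]
        exact max_eq_left (by linarith only [ht1, t2, t3, hw0])
      linarith only [z2, h6, h7, h8]
    · push Not at hw0
      have h8 : bump t (w.re - 1 / 4) = 0 := by
        unfold bump
        rw [abs_of_nonpos (by linarith only [hw0])]
        exact max_eq_left (by linarith only [ht1, t2, t3, hw0])
      linarith only [z2, h5, h7, h8]
  have p1 := pit_nonneg (t ^ 3 - t ^ 4) (-t ^ 4) (w.im + 1 / 4)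
  have p2 := pit_nonneg (t ^ 3 - t ^ 4) (-t ^ 4) (w.im - 1 / 4)
  have p3 := slit_nonneg t (1 - t ^ 3 / 4) (w.im + 1 / 16)
  have p4 := slit_nonneg t (1 - 3 * t ^ 3 / 4) (w.im - 1 / 16)
  have p5 := chamf_nonneg t (hh t) w.im
  have p6 := pit_nonneg (t ^ 3 / 2) (-t ^ 3) (w.im + 5 / 16)
  have p7 := pit_nonneg (t ^ 3 / 2) (t ^ 3) (w.im + 3 / 16)
  have p8 := pit_nonneg (t ^ 3 / 2) (t ^ 3) (w.im - 3 / 16)
  have p9 := pit_nonneg (t ^ 3 / 2) (-t ^ 3) (w.im - 5 / 16)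
  have w3 : -1 / 2 ≤ w.re := by linarith only [z3, p1, p2, p3, p4, p5]
  have w4 : w.re ≤ 1 / 2 := by linarith only [z4, p5, p6, p7, p8, p9]
  have hslit : -1 / 2 + slit t (1 - (t ^ 3 / 2 - g * t ^ 3 / 4)) (w.im + g / 16) ≤ w.re := by
    rcases hg with rfl | rfl
    · have e1 : 1 - (t ^ 3 / 2 - 1 * t ^ 3 / 4) = 1 - t ^ 3 / 4 := by ring
      have e2 : w.im + 1 / 16 = w.im + 1 / 16 := rfl
      rw [e1]
      linarith only [z3, p1, p2, p4, p5]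
    · have e1 : 1 - (t ^ 3 / 2 - -1 * t ^ 3 / 4) = 1 - 3 * t ^ 3 / 4 := by ring
      have e2 : w.im + -1 / 16 = w.im - 1 / 16 := by ring
      rw [e1, e2]
      linarith only [z3, p1, p2, p3, p5]
  have hpit1 : pit (t ^ 3 / 2) (-g * t ^ 3) (w.im + g / 16 - -(1 / 4)) ≤ 1 / 2 - w.re := by
    rcases hg with rfl | rfl
    · have e1 : -1 * t ^ 3 = -t ^ 3 := by ring
      have e2 : w.im + 1 / 16 - -(1 / 4) = w.im + 5 / 16 := by ring
      rw [e1, e2]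
      linarith only [z4, p5, p7, p8, p9]
    · have e1 : - -1 * t ^ 3 = t ^ 3 := by ring
      have e2 : w.im + -1 / 16 - -(1 / 4) = w.im + 3 / 16 := by ring
      rw [e1, e2]
      linarith only [z4, p5, p6, p8, p9]
  have hpit2 : pit (t ^ 3 / 2) (g * t ^ 3) (w.im + g / 16 - 1 / 4) ≤ 1 / 2 - w.re := by
    rcases hg with rfl | rfl
    · have e1 : 1 * t ^ 3 = t ^ 3 := by ring
      have e2 : w.im + 1 / 16 - 1 / 4 = w.im - 3 / 16 := by ring
      rw [e1, e2]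
      linarith only [z4, p5, p6, p7, p9]
    · have e1 : -1 * t ^ 3 = -t ^ 3 := by ring
      have e2 : w.im + -1 / 16 - 1 / 4 = w.im - 5 / 16 := by ring
      rw [e1, e2]
      linarith only [z4, p5, p6, p7, p8]
  set X := w.im + g / 16 with hX
  set Y := 1 / 2 - (t ^ 3 / 2 - g * t ^ 3 / 4) - w.re with hY
  have hh1 : hh t = 1 / 2 + t ^ 2 / 2 := by unfold hh; ring
  have hgb : -1 ≤ g ∧ g ≤ 1 := by rcases hg with rfl | rfl <;> norm_num
  have hgt : -t ^ 3 ≤ g * t ^ 3 ∧ g * t ^ 3 ≤ t ^ 3 := by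
    rcases hg with rfl | rfl <;> constructor <;> linarith only [h8, t6, t7, t8]
  obtain ⟨gt1, gt2⟩ := hgt
  obtain ⟨gb1, gb2⟩ := hgb
  have hX1 : |X| ≤ 1 := by rw [abs_le]; constructor <;> linarith only [ht1, t2, w1, hX, hh1, gb1, t3, w2, gb2]
  have hYa : |Y| ≤ 1 := by rw [abs_le]; constructor <;> linarith only [ht1, h8, t2, t3, t6, t7, t8, z4, p5, p6, p7, p8, p9, hY, gt1, z3, p1, p2, p3, p4, gt2]
  obtain ⟨s1, s2⟩ := abs_le.1 hs
  have hxz : |x - (w.im + 1 / 2)| ≤ 6 * t ^ 8 := by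
    have h5 : x - (w.im + 1 / 2) = -((1 - c) * X) - s * Y := by rw [hx, hX]; ring
    rw [h5]
    calc |-((1 - c) * X) - s * Y| ≤ |-((1 - c) * X)| + |s * Y| := abs_sub _ _
      _ = (1 - c) * |X| + |s| * |Y| := by
          rw [abs_neg, abs_mul, abs_mul, abs_of_nonneg (by linarith only [hc2] : 0 ≤ 1 - c)]
      _ ≤ t ^ 8 * 1 + 5 * t ^ 8 * 1 := by
          refine add_le_add ?_ ?_
          · exact mul_le_mul (by linarith only [hc]) hX1 (abs_nonneg _) h8.le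
          · exact mul_le_mul hs hYa (abs_nonneg _) (by linarith only [h8])
      _ = 6 * t ^ 8 := by ring
  have hyz : |y - (Y + (t ^ 3 - g * t ^ 3 / 4))| ≤ 6 * t ^ 8 := by
    have h5 : y - (Y + (t ^ 3 - g * t ^ 3 / 4)) = s * X - (1 - c) * Y := by rw [hy]; ring
    rw [h5]
    calc |s * X - (1 - c) * Y| ≤ |s * X| + |(1 - c) * Y| := abs_sub _ _
      _ = |s| * |X| + (1 - c) * |Y| := by
          rw [abs_mul, abs_mul, abs_of_nonneg (by linarith only [hc2] : 0 ≤ 1 - c)]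
      _ ≤ 5 * t ^ 8 * 1 + t ^ 8 * 1 := by
          refine add_le_add ?_ ?_
          · exact mul_le_mul hs hX1 (abs_nonneg _) (by linarith only [h8])
          · exact mul_le_mul (by linarith only [hc]) hYa (abs_nonneg _) h8.le
      _ = 6 * t ^ 8 := by ring
  obtain ⟨xz1, xz2⟩ := abs_le.1 hxz
  obtain ⟨yz1, yz2⟩ := abs_le.1 hyz
  refine ⟨by linarith only [h8, t2, t3, t6, t7, t8, w1, hh1, xz1], by linarith only [h8, t2, t3, t6, t7, t8, w2, hh1, xz2], by linarith only [h8, t6, t7, t8, z4, p5, p6, p7, p8, p9, hY, yz1], by linarith only [h8, t2, t3, t6, t7, t8, z3, p1, p2, p3, p4, p5, hY, yz2], ?_, ?_, ?_⟩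
  · have h5 := port (t := t) ht ht1 (g := -g) (xj := -(1 / 4)) (Yj := Y₁) (c := c) (s := s)
      (σ' := g) (X := X) (Y := Y) (ξ := c * X - s * Y) (η := s * X + c * Y)
      (by rcases hg with rfl | rfl <;> simp) hY1 hcs hc hc2 hs (by ring)
      (by
        have e : (-s - -g * t ^ 3 * c) * -(1 / 4) + (c - -g * t ^ 3 * s) * (g * t ^ 3 / 4 + Y₁) =
          (-s + g * t ^ 3 * c) * (-(1 / 4)) + (c + g * t ^ 3 * s) * (g * t ^ 3 / 4 + Y₁) := by ring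
        rw [e]
        exact hP1) rfl rfl hX1 hYa
      (by
        have e : Y + (t ^ 3 / 2 - g * t ^ 3 / 4) = 1 / 2 - w.re := by rw [hY]; ring
        rw [e]
        exact hpit1)
      (by linarith only [z4, p5, p6, p7, p8, p9, hY])
    have e1 : x - (1 / 2 - g / 16 - 1 / 4) = c * X - s * Y - -(1 / 4) := by rw [hx]; ring
    rw [e1, hy]
    exact h5
  · have h5 := port (t := t) ht ht1 (g := g) (xj := 1 / 4) (Yj := Y₂) (c := c) (s := s)
      (σ' := g) (X := X) (Y := Y) (ξ := c * X - s * Y) (η := s * X + c * Y)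
      hg hY2 hcs hc hc2 hs (by ring) hP2 rfl rfl hX1 hYa
      (by
        have e : Y + (t ^ 3 / 2 - g * t ^ 3 / 4) = 1 / 2 - w.re := by rw [hY]; ring
        rw [e]
        exact hpit2)
      (by linarith only [z4, p5, p6, p7, p8, p9, hY])
    have e1 : x - (1 / 2 - g / 16 + 1 / 4) = c * X - s * Y - 1 / 4 := by rw [hx]; ring
    rw [e1, hy]
    exact h5
  · have hYs : Y ≤ (1 - (t ^ 3 / 2 - g * t ^ 3 / 4)) * (|X| / (2 * t ^ 7)) := by
      have h5 : (1 - (t ^ 3 / 2 - g * t ^ 3 / 4)) * (1 - |X| / (2 * t ^ 7)) ≤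
          slit t (1 - (t ^ 3 / 2 - g * t ^ 3 / 4)) X := le_max_right _ _
      have e : (1 - (t ^ 3 / 2 - g * t ^ 3 / 4)) * (1 - |X| / (2 * t ^ 7)) =
        (1 - (t ^ 3 / 2 - g * t ^ 3 / 4)) -
          (1 - (t ^ 3 / 2 - g * t ^ 3 / 4)) * (|X| / (2 * t ^ 7)) := by ring
      rw [e] at h5
      linarith only [hslit, hY, h5]
    have h5 := spike ht ht1 (p := t ^ 3 - g * t ^ 3 / 4) (d := 1 - (t ^ 3 / 2 - g * t ^ 3 / 4))
      (by linarith only [h8, t6, t7, t8, gt2]) (by linarith only [h8, t6, t7, t8, gt1]) (by linarith only [h8, t6, t7, t8, gt2]) hc hc2 hs hYs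
    have e1 : x - (1 / 2 - g / 16) = c * X - s * Y := by rw [hx]; ring
    rw [e1]
    linarith only [hy, h5]

theorem k4 : K4Stmt := by
  intro t Y₁ Y₂ σ ht ht1 hY1 hY2 hineq
  obtain ⟨h2, h3, h4, h6, h7, h8, t1, t2, t3, t4, t6, t7, t8⟩ := tpow ht ht1
  obtain ⟨y11, y12⟩ := abs_le.1 hY1
  obtain ⟨y21, y22⟩ := abs_le.1 hY2
  obtain ⟨g, hg, hgσ, heL, htip⟩ : ∃ g : ℝ, (g = 1 ∨ g = -1) ∧ sgB σ = g ∧
      1 - eL σ = 1 / 2 - g / 16 ∧ tipH t σ = t ^ 3 - g * t ^ 3 / 4 := by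
    cases σ with
    | true => exact ⟨1, Or.inl rfl, rfl, by norm_num [eL], by simp only [tipH, if_true]; ring⟩
    | false =>
      refine ⟨-1, Or.inr rfl, rfl, by norm_num [eL], ?_⟩
      simp only [tipH, Bool.false_eq_true, if_false]
      ring
  rw [hgσ] at hineq
  rw [heL, htip]
  have hg1 : |g| = 1 := by rcases hg with rfl | rfl <;> simp
  have hg2 : g ^ 2 = 1 := by rcases hg with rfl | rfl <;> norm_num
  have hgY : ∀ Y, |Y| ≤ t ^ 8 → |4 * g * t ^ 3 * Y| ≤ 1 / 10 ^ 6 := by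
    intro Y hY
    rw [abs_mul, abs_mul, abs_mul, hg1, abs_of_pos h3, abs_of_pos (by norm_num : (0 : ℝ) < 4)]
    have : t ^ 3 ≤ 1 := by linarith only [ht1, t2, t3]
    have h5 : t ^ 3 * |Y| ≤ 1 * t ^ 8 := mul_le_mul this hY (abs_nonneg _) (by norm_num)
    have h6 : t ^ 8 ≤ 1 / 10 ^ 8 := by linarith only [ht1, t2, t3, t6, t7, t8]
    linarith only [ht1, t2, t3, t6, t7, t8, h5]
  set a₂ : ℝ := 1 + t ^ 6 + 4 * g * t ^ 3 * Y₂ with ha₂
  set a₁ : ℝ := 1 + t ^ 6 + 4 * g * t ^ 3 * Y₁ with ha₁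
  have ha2 : 99 / 100 ≤ a₂ := by have := (abs_le.1 (hgY Y₂ hY2)).1; linarith only [h8, t7, t8, this]
  set T : ℝ := 4 * Y₂ / a₂ with hT
  have hTa : T * a₂ = 4 * Y₂ := by rw [hT]; field_simp
  have hTabs : |T| ≤ 5 * t ^ 8 := by
    rw [hT, abs_div, abs_mul, abs_of_pos (by linarith only [ha2] : 0 < a₂),
      abs_of_pos (by norm_num : (0 : ℝ) < 4), div_le_iff₀ (by linarith only [ha2])]
    nlinarith only [hY2, h8, ha2]
  have hr0 : 0 < 1 + T ^ 2 := by positivity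
  set r : ℝ := Real.sqrt (1 + T ^ 2) with hr
  have hr2 : r ^ 2 = 1 + T ^ 2 := Real.sq_sqrt hr0.le
  have hrpos : 0 < r := Real.sqrt_pos.2 hr0
  have hr1 : 1 ≤ r := by nlinarith only [hr2, hrpos, sq_nonneg T]
  set c : ℝ := 1 / r with hc
  set s : ℝ := T * c with hs
  have hcpos : 0 < c := by rw [hc]; positivity
  have hc1 : c ≤ 1 := by
    rw [hc, div_le_one hrpos]
    exact hr1
  have hcr : c * r = 1 := by rw [hc]; field_simp
  have hcs : c ^ 2 + s ^ 2 = 1 := by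
    have h5 : c ^ 2 + s ^ 2 = c ^ 2 * (1 + T ^ 2) := by rw [hs]; ring
    rw [h5, ← hr2, ← mul_pow, hcr, one_pow]
  have hsabs : |s| ≤ 5 * t ^ 8 := by
    rw [hs, abs_mul, abs_of_pos hcpos]
    nlinarith only [hc1, hTabs, abs_nonneg T]
  have hclow : 1 - t ^ 8 ≤ c := by
    have h5 : s ^ 2 ≤ t ^ 8 := by
      rw [← sq_abs]
      have h6 : |s| ^ 2 ≤ (5 * t ^ 8) ^ 2 := pow_le_pow_left₀ (abs_nonneg _) hsabs 2
      have h7 : (5 * t ^ 8) ^ 2 = 25 * t ^ 8 * t ^ 8 := by ring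
      have h9 : 25 * t ^ 8 * t ^ 8 ≤ 1 * t ^ 8 := mul_le_mul_of_nonneg_right (by linarith only [ht1, t2, t3, t6, t7, t8]) h8.le
      linarith only [h6, h9]
    nlinarith only [hcs, h5, hrpos, hcr]
  have hP2 : (-s - g * t ^ 3 * c) * (1 / 4) + (c - g * t ^ 3 * s) * (g * t ^ 3 / 4 + Y₂) ≤ 0 := by
    have h5 : (-s - g * t ^ 3 * c) * (1 / 4) + (c - g * t ^ 3 * s) * (g * t ^ 3 / 4 + Y₂) =
        c * (Y₂ - T / 4 * (1 + g ^ 2 * t ^ 6 + 4 * g * t ^ 3 * Y₂)) := by rw [hs]; ring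
    rw [h5, hg2, one_mul, ← ha₂]
    have h6 : T / 4 * a₂ = Y₂ := by linarith only [hTa]
    rw [h6, sub_self, mul_zero]
  have hP1 : (-s + g * t ^ 3 * c) * (-(1 / 4)) + (c + g * t ^ 3 * s) * (g * t ^ 3 / 4 + Y₁) ≤ 0 := by
    have h5 : (-s + g * t ^ 3 * c) * (-(1 / 4)) + (c + g * t ^ 3 * s) * (g * t ^ 3 / 4 + Y₁) =
        c * (Y₁ + T / 4 * (1 + g ^ 2 * t ^ 6 + 4 * g * t ^ 3 * Y₁)) := by rw [hs]; ring
    rw [h5, hg2, one_mul, ← ha₁]
    refine mul_nonpos_of_nonneg_of_nonpos hcpos.le ?_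
    have h6 : (Y₁ + T / 4 * a₁) * a₂ ≤ 0 := by
      have e : (Y₁ + T / 4 * a₁) * a₂ = Y₁ * a₂ + (T * a₂) / 4 * a₁ := by ring
      rw [e, hTa, ha₁, ha₂]
      linarith only [hineq]
    by_contra hcon
    push Not at hcon
    have := mul_pos hcon (by linarith only [ha2] : 0 < a₂)
    linarith only [h6, this]
  have hunit : ‖(⟨c, s⟩ : ℂ) * Complex.I ^ 3‖ = 1 := by
    rw [norm_mul, norm_pow, Complex.norm_I, one_pow, mul_one]
    have h5 : ‖(⟨c, s⟩ : ℂ)‖ ^ 2 = 1 := by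
      rw [Complex.sq_norm, Complex.normSq_apply]
      linarith only [hcs]
    have h6 := norm_nonneg (⟨c, s⟩ : ℂ)
    nlinarith only [h5, h6]
  have hI3 : (Complex.I : ℂ) ^ 3 = -Complex.I := by
    rw [pow_succ, Complex.I_sq]
    ring
  refine ⟨⟨(⟨c, s⟩ : ℂ) * Complex.I ^ 3, (⟨1 / 2 - g / 16, t ^ 3 - g * t ^ 3 / 4⟩ : ℂ) -
    ⟨c, s⟩ * ⟨-(g / 16), -1 / 2 + (t ^ 3 / 2 - g * t ^ 3 / 4)⟩, hunit⟩, ?_⟩
  rintro z ⟨w, hw, rfl⟩
  refine k4_core hg ht ht1 hY1 hY2 hcs hclow hsabs hP1 hP2 w hw _ _ ?_ ?_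
  · simp only [Motion.app, hI3, Complex.add_re, Complex.sub_re, Complex.mul_re, Complex.neg_re,
      Complex.neg_im, Complex.I_re, Complex.I_im, Complex.mul_im]
    ring
  · simp only [Motion.app, hI3, Complex.add_im, Complex.sub_im, Complex.mul_im, Complex.neg_re,
      Complex.neg_im, Complex.I_re, Complex.I_im, Complex.mul_re]
    ring

end Pool.Agent.Helper2_Pak.H73
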