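import Pool.Agent.Helper2_Pak.StmtsK

/-!
# U2a: from displacements to the values of the columns
-/

namespace Pool.Agent.Helper2_Pak.H73

open Pool.Agent.Helper2_Pack (SInst Con)

variable {G : Lay} {t : ℝ} {xl xr : ℕ → ℕ → ℝ} {Y : ℕ → ℝ}

/-- the sum over the special tiles of the local rows -/
theorem locsum (G : Lay) (c : ℕ) (f : ℕ → ℝ) :
    ∑ r ∈ (Finset.Ico G.N (G.top c)).filter (fun r => G.spc c r = true), f r =
      ∑ j ∈ Finset.range (G.kd c).h,
        if (G.kd c).sp (j + 1) = true then f (2 * G.n + (j + 1)) else 0 := by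
  rw [Finset.sum_filter, Finset.sum_Ico_eq_sum_range]
  have e : G.top c - G.N = (G.kd c).h := by unfold Lay.top; omega
  rw [e]
  refine Finset.sum_congr rfl fun j _ => ?_
  have e1 : G.N + j = 2 * G.n + (j + 1) := by unfold Lay.N; omega
  have e2 : G.spc c (G.N + j) = (G.kd c).sp (j + 1) := by
    unfold Lay.spc
    rw [if_neg (by omega)]
    congr 1
    omega
  rw [e2, e1]

theorem chain (W : Wit t G xl xr Y) {r : ℕ} (hr : r % 2 = 1) (c d : ℕ)
    (h : ∀ k, k ≤ d + 1 → G.pres (c + k) r = true) : xr c r ≤ xl (c + (d + 1)) r := by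
  induction d with
  | zero => exact W.adj c r hr (by simpa using h 0 (by omega)) (h 1 le_rfl)
  | succ d ih =>
    have h1 := ih fun k hk => h k (by omega)
    have h2 := W.wid (c + (d + 1)) r hr (h _ (by omega))
    have h3 := W.adj (c + (d + 1)) r hr (h _ (by omega)) (h _ le_rfl)
    exact (h1.trans h2).trans h3

theorem presMain {c i : ℕ} (hc : c < G.M) (hi : i < G.n) : G.pres c (2 * i + 1) = true := by
  unfold Lay.pres
  simp only [Bool.and_eq_true, decide_eq_true_eq]
  refine ⟨hc, ?_⟩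
  unfold Lay.top Lay.N
  omega

theorem presLoc {c j : ℕ} (hc : c < G.M) (hj : j + 1 ≤ (G.kd c).h) :
    G.pres c (2 * G.n + (j + 1)) = true := by
  unfold Lay.pres
  simp only [Bool.and_eq_true, decide_eq_true_eq]
  refine ⟨hc, ?_⟩
  unfold Lay.top Lay.N
  omega

theorem main_lt (W : Wit t G xl xr Y) {c c' i : ℕ} (hi : i < G.n) (h : c < c') (hc' : c' < G.M) :
    xr c (2 * i + 1) ≤ xl c' (2 * i + 1) := by
  have h1 := chain W (r := 2 * i + 1) (by omega) c (c' - c - 1)
    fun k hk => presMain (by omega) hi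
  have e : c + (c' - c - 1 + 1) = c' := by omega
  rwa [e] at h1

theorem main_le (W : Wit t G xl xr Y) {c c' i : ℕ} (hi : i < G.n) (h : c ≤ c') (hc' : c' < G.M) :
    xl c (2 * i + 1) ≤ xl c' (2 * i + 1) := by
  rcases h.eq_or_lt with rfl | h
  · exact le_rfl
  · have h1 := W.wid c (2 * i + 1) (by omega) (presMain (by omega) hi)
    exact h1.trans (main_lt W hi h hc')

/-- the sum of the displacements of the column `m` -/
noncomputable def Zt (t : ℝ) (xl : ℕ → ℕ → ℝ) (m l : ℕ) : ℝ :=
  (∑ i ∈ Finset.range l, xl m (2 * i + 1)) / t ^ 4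

theorem Zt_mul (ht : 0 < t) (xl : ℕ → ℕ → ℝ) (m l : ℕ) :
    t ^ 8 * Zt t xl m l = t ^ 4 * ∑ i ∈ Finset.range l, xl m (2 * i + 1) := by
  unfold Zt
  field_simp

theorem right_le (W : Wit t G xl xr Y) (ht : 0 < t) {m c : ℕ} (hm : m ≤ c) (hc : c < G.M)
    (hl : G.l c ≤ G.n) (hV : (G.kd c).isW = false) : t ^ 8 * Zt t xl m (G.l c) ≤ Y c := by
  rw [Zt_mul ht]
  refine le_trans ?_ (W.mainV c hc hV)
  refine mul_le_mul_of_nonneg_left ?_ (by positivity)
  refine Finset.sum_le_sum fun i hi => ?_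
  rw [Finset.mem_range] at hi
  exact main_le W (by omega) hm hc

theorem left_le (W : Wit t G xl xr Y) (ht : 0 < t) {m c : ℕ} (hm : c < m) (hmM : m < G.M)
    (hl : G.l c ≤ G.n) (hV : (G.kd c).isW = true) : -(t ^ 8 * Zt t xl m (G.l c)) ≤ Y c := by
  rw [Zt_mul ht]
  refine le_trans ?_ (W.mainW c (by omega) hV)
  refine neg_le_neg ?_
  refine mul_le_mul_of_nonneg_left ?_ (by positivity)
  refine Finset.sum_le_sum fun i hi => ?_
  rw [Finset.mem_range] at hi
  exact main_lt W (by omega) hm hmM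

/-- the ceiling of a `V` column -/
theorem ceV (W : Wit t G xl xr Y) {c : ℕ} (hc : c < G.M) {K : Kind} (hK : G.kd c = K)
    (hV : K.isW = false) (hL : K.isL = false) (hR : K.isR = false) :
    Y c + t ^ 4 * ∑ j ∈ Finset.range K.h,
      (if K.sp (j + 1) = true then xl c (2 * G.n + (j + 1)) else 0) ≤ K.off * t ^ 8 := by
  subst hK
  have h := W.ceilV c hc hV hL hR
  rwa [locsum] at h

/-- the ceiling of a `W` column -/
theorem ceW (W : Wit t G xl xr Y) {c : ℕ} (hc : c < G.M) {K : Kind} (hK : G.kd c = K)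
    (hV : K.isW = true) :
    Y c - t ^ 4 * ∑ j ∈ Finset.range K.h,
      (if K.sp (j + 1) = true then xr c (2 * G.n + (j + 1)) else 0) ≤ K.off * t ^ 8 := by
  subst hK
  have h := W.ceilW c hc hV
  rwa [locsum] at h

/-- a chain in a local row -/
theorem locChain (W : Wit t G xl xr Y) {j : ℕ} (hj : j % 2 = 0) (c d : ℕ) (hc : c + (d + 1) < G.M)
    (h : ∀ k, k ≤ d + 1 → j + 1 ≤ (G.kd (c + k)).h) :
    xr c (2 * G.n + (j + 1)) ≤ xl (c + (d + 1)) (2 * G.n + (j + 1)) :=
  chain W (by omega) c d fun k hk => presLoc (by omega) (h k hk)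

/-- the lever inequality is monotone -/
theorem lever_mono {t g u v Y Y' : ℝ} (ht : 0 < t) (ht1 : t ≤ 1 / 2 ^ 60) (hg : |g| = 1)
    (hu : u ≤ Y) (hv : v ≤ Y') (hv1 : |v| ≤ t ^ 3 / 64) (hY : |Y| ≤ t ^ 3 / 64)
    (h : 1 / 4 * (1 + t ^ 6) * (Y + Y') + 2 * g * t ^ 3 * (Y * Y') ≤ 0) :
    1 / 4 * (1 + t ^ 6) * (u + v) + 2 * g * t ^ 3 * (u * v) ≤ 0 := by
  have h0 : t ≤ 1 / 100 := ht1.trans (by norm_num)
  have h3 : 0 < t ^ 3 := by positivity
  have h31 : t ^ 3 ≤ 1 := pow_le_one₀ ht.le (by linarith)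
  have h6 : 0 < t ^ 6 := by positivity
  have hb : ∀ w : ℝ, |w| ≤ t ^ 3 / 64 → 0 ≤ 1 / 4 * (1 + t ^ 6) + 2 * g * t ^ 3 * w := by
    intro w hw
    have h5 : |2 * g * t ^ 3 * w| ≤ 1 / 32 := by
      rw [abs_mul, abs_mul, abs_mul, hg, abs_of_pos h3, abs_of_pos (by norm_num : (0 : ℝ) < 2)]
      have : t ^ 3 * |w| ≤ 1 * (1 / 64) :=
        mul_le_mul h31 (hw.trans (by linarith only [h31])) (abs_nonneg _) (by norm_num)
      linarith only [this]
    have := (abs_le.1 h5).1
    linarith only [h6, this]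
  have h1 := mul_nonneg (hb v hv1) (sub_nonneg.2 hu)
  have h2 := mul_nonneg (hb Y hY) (sub_nonneg.2 hv)
  linarith only [h, h1, h2]

theorem eps_of {t g z z' : ℝ} (ht : 0 < t)
    (h : 1 / 4 * (1 + t ^ 6) * (t ^ 8 * z + t ^ 8 * z') + 2 * g * t ^ 3 * (t ^ 8 * z * (t ^ 8 * z'))
      ≤ 0) : z + z' + g * (eps1 t * (z * z')) ≤ 0 := by
  have h6 : 0 < 1 + t ^ 6 := by positivity
  have h8 : 0 < t ^ 8 := by positivity
  have e : 1 / 4 * (1 + t ^ 6) * (t ^ 8 * z + t ^ 8 * z') +
      2 * g * t ^ 3 * (t ^ 8 * z * (t ^ 8 * z')) =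
      (1 / 4 * (1 + t ^ 6) * t ^ 8) * (z + z' + g * (eps1 t * (z * z'))) := by
    unfold eps1
    field_simp
    ring
  rw [e] at h
  by_contra hcon
  push Not at hcon
  have := mul_pos (by positivity : 0 < 1 / 4 * (1 + t ^ 6) * t ^ 8) hcon
  linarith only [h, this]

theorem n_pos {S : SInst} (h : S.WF) : 0 < S.n := by
  obtain ⟨h1, h2⟩ := h
  obtain ⟨c, hc⟩ := List.exists_mem_of_ne_nil _ h1
  have h3 := h2 c hc
  cases c with
  | sum I κ =>
    obtain ⟨h4, -, -, h5, -⟩ := h3
    obtain ⟨i, hi⟩ := List.exists_mem_of_ne_nil _ h4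
    have := h5 i hi
    omega
  | inv i j =>
    obtain ⟨h4, h5⟩ := h3
    omega

theorem u2a (hU0 : U0Stmt) : U2aStmt := by
  intro S t xl xr Y hS ht ht1 W
  obtain ⟨u1, u2, u3, -, u5, u6⟩ := hU0 S hS
  have hn := n_pos hS
  have hGn : (lay S).n = nR S := rfl
  have hGM : (lay S).M = 7 * (2 * nT S + 3) := rfl
  set G := lay S with hG
  set m : ℕ := 7 * (nT S + 1) with hm
  have hmM : m < G.M := by rw [hGM]; omega
  have h8 : 0 < t ^ 8 := by positivity
  have h4 : 0 < t ^ 4 := by positivity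
  -- the columns of a block
  have col : ∀ b c, c < 7 → ∀ B, blk S b = B → G.kd (7 * b + c) = (B.col (nR S) c).1 ∧
      G.l (7 * b + c) = (B.col (nR S) c).2 := by
    intro b c hc B hB
    rw [← hB]
    exact u5 b c hc
  -- right blocks
  have right : ∀ b a a' a'' o, blk S b = .sum true a a' a'' o →
      Zt t xl m (nR S) ≤ 0 ∧ Zt t xl m a + Zt t xl m a' + Zt t xl m a'' ≤ o := by
    intro b a a' a'' o hb
    obtain ⟨v1, v2, v3, -, -, v4, -⟩ := u1 _ _ _ _ _ _ hb
    obtain ⟨v5, v6⟩ := v4 rfl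
    have hbM : 7 * b + 6 < G.M := by rw [hGM]; omega
    have hmb : m ≤ 7 * b := by rw [hm]; omega
    obtain ⟨k0, l0⟩ := col b 0 (by norm_num) _ hb
    obtain ⟨k1, l1⟩ := col b 1 (by norm_num) _ hb
    obtain ⟨k2, l2⟩ := col b 2 (by norm_num) _ hb
    obtain ⟨k3, l3⟩ := col b 3 (by norm_num) _ hb
    obtain ⟨k4, l4⟩ := col b 4 (by norm_num) _ hb
    obtain ⟨k5, l5⟩ := col b 5 (by norm_num) _ hb
    obtain ⟨k6, l6⟩ := col b 6 (by norm_num) _ hb
    change G.kd (7 * b + 0) = .U at k0
    change G.kd (7 * b + 1) = .bW at k1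
    change G.kd (7 * b + 2) = .bV at k2
    change G.kd (7 * b + 3) = .V3 o at k3
    change G.kd (7 * b + 4) = .V2 at k4
    change G.kd (7 * b + 5) = .V1 at k5
    change G.kd (7 * b + 6) = .Z at k6
    change G.l (7 * b + 0) = nR S at l0
    change G.l (7 * b + 3) = a at l3
    change G.l (7 * b + 4) = a' at l4
    change G.l (7 * b + 5) = a'' at l5
    change G.l (7 * b + 6) = nR S at l6
    -- the column Z
    have z1 := ceV W (by omega) k6 rfl rfl rfl
    have z2 := right_le W ht (m := m) (c := 7 * b + 6) (by omega) (by omega) (by omega)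
      (by rw [k6]; rfl)
    simp only [Kind.h, Finset.range_zero, Finset.sum_empty, mul_zero, add_zero, Kind.off,
      Int.cast_zero, zero_mul] at z1
    rw [l6] at z2
    have z3 : Zt t xl m (nR S) ≤ 0 := by
      by_contra hcon
      push Not at hcon
      have := mul_pos h8 hcon
      linarith only [z2, z1, this]
    -- the column U
    have z4 := W.mainV (7 * b + 6) (by omega) (by rw [k6]; rfl)
    have z5 := W.mainW (7 * b + 0) (by omega) (by rw [k0]; rfl)
    rw [l6] at z4
    rw [l0] at z5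
    have z6 : ∑ i ∈ Finset.range (nR S), xr (7 * b + 0) (2 * i + 1) ≤
        ∑ i ∈ Finset.range (nR S), xl (7 * b + 6) (2 * i + 1) := by
      refine Finset.sum_le_sum fun i hi => ?_
      rw [Finset.mem_range] at hi
      exact main_lt W (by omega) (by omega) (by omega)
    have z7 := mul_le_mul_of_nonneg_left z6 h4.le
    have z8 := ceW W (by omega) k0 rfl
    -- the other columns
    have y5 := ceV W (by omega) k5 rfl rfl rfl
    have y4 := ceV W (by omega) k4 rfl rfl rfl
    have y3 := ceV W (by omega) k3 rfl rfl rfl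
    have x5 := right_le W ht (m := m) (c := 7 * b + 5) (by omega) (by omega) (by omega)
      (by rw [k5]; rfl)
    have x4 := right_le W ht (m := m) (c := 7 * b + 4) (by omega) (by omega) (by omega)
      (by rw [k4]; rfl)
    have x3 := right_le W ht (m := m) (c := 7 * b + 3) (by omega) (by omega) (by omega)
      (by rw [k3]; rfl)
    rw [l5] at x5
    rw [l4] at x4
    rw [l3] at x3
    simp only [Kind.h, Finset.sum_range_succ, Finset.sum_range_zero, Kind.sp, Kind.off]
      at z8 y5 y4 y3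
    norm_num at z8 y5 y4 y3
    have c1 := locChain W (j := 0) (by norm_num) (7 * b + 0) 4 (by omega) (by
      intro k hk
      interval_cases k
      · rw [add_zero, k0]; decide
      · rw [add_zero, k1]; decide
      · rw [add_zero, k2]; decide
      · rw [add_zero, k3]; simp [Kind.h]
      · rw [add_zero, k4]; decide
      · rw [add_zero, k5]; decide)
    have c3 := locChain W (j := 2) (by norm_num) (7 * b + 0) 3 (by omega) (by
      intro k hk
      interval_cases k
      · rw [add_zero, k0]; decide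
      · rw [add_zero, k1]; decide
      · rw [add_zero, k2]; decide
      · rw [add_zero, k3]; simp [Kind.h]
      · rw [add_zero, k4]; decide)
    have c5 := locChain W (j := 4) (by norm_num) (7 * b + 0) 2 (by omega) (by
      intro k hk
      interval_cases k
      · rw [add_zero, k0]; decide
      · rw [add_zero, k1]; decide
      · rw [add_zero, k2]; decide
      · rw [add_zero, k3]; simp [Kind.h])
    norm_num at c1 c3 c5
    refine ⟨z3, ?_⟩
    have d1 := mul_le_mul_of_nonneg_left c1 h4.le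
    have d3 := mul_le_mul_of_nonneg_left c3 h4.le
    have d5 := mul_le_mul_of_nonneg_left c5 h4.le
    have fin : t ^ 8 * (Zt t xl m a + Zt t xl m a' + Zt t xl m a'' - o) ≤ 0 := by
      norm_num at z7 z5
      linarith only [z1, z4, x5, x4, x3, z8, y5, y4, y3, d1, d3, d5, z7, z5]
    by_contra hcon
    push Not at hcon
    have := mul_pos h8 (sub_pos.2 hcon)
    linarith only [fin, this]
  -- left blocks
  have left : ∀ b a a' a'' o, blk S b = .sum false a a' a'' o →
      0 ≤ Zt t xl m (nR S) ∧ -(Zt t xl m a + Zt t xl m a' + Zt t xl m a'') ≤ o := by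
    intro b a a' a'' o hb
    obtain ⟨v1, v2, v3, -, -, -, v4⟩ := u1 _ _ _ _ _ _ hb
    obtain ⟨v5, v6⟩ := v4 rfl
    have hbM : 7 * b + 6 < m := by rw [hm]; omega
    obtain ⟨k0, l0⟩ := col b 0 (by norm_num) _ hb
    obtain ⟨k1, l1⟩ := col b 1 (by norm_num) _ hb
    obtain ⟨k2, l2⟩ := col b 2 (by norm_num) _ hb
    obtain ⟨k3, l3⟩ := col b 3 (by norm_num) _ hb
    obtain ⟨k4, l4⟩ := col b 4 (by norm_num) _ hb
    obtain ⟨k5, l5⟩ := col b 5 (by norm_num) _ hb
    obtain ⟨k6, l6⟩ := col b 6 (by norm_num) _ hb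
    change G.kd (7 * b + 0) = .Zw at k0
    change G.kd (7 * b + 1) = .W1 at k1
    change G.kd (7 * b + 2) = .W2 at k2
    change G.kd (7 * b + 3) = .W3 o at k3
    change G.kd (7 * b + 4) = .bW at k4
    change G.kd (7 * b + 5) = .bV at k5
    change G.kd (7 * b + 6) = .Uv at k6
    change G.l (7 * b + 0) = nR S at l0
    change G.l (7 * b + 1) = a'' at l1
    change G.l (7 * b + 2) = a' at l2
    change G.l (7 * b + 3) = a at l3
    change G.l (7 * b + 6) = nR S at l6
    -- the column Zw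
    have z1 := ceW W (by omega) k0 rfl
    have z2 := left_le W ht (m := m) (c := 7 * b + 0) (by omega) (by omega) (by omega)
      (by rw [k0]; rfl)
    simp only [Kind.h, Finset.range_zero, Finset.sum_empty, mul_zero, sub_zero, Kind.off,
      Int.cast_zero, zero_mul] at z1
    rw [l0] at z2
    have z3 : 0 ≤ Zt t xl m (nR S) := by
      by_contra hcon
      push Not at hcon
      have := mul_neg_of_pos_of_neg h8 hcon
      linarith only [z2, z1, this]
    -- the column Uv
    have z4 := W.mainW (7 * b + 0) (by omega) (by rw [k0]; rfl)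
    have z5 := W.mainV (7 * b + 6) (by omega) (by rw [k6]; rfl)
    rw [l0] at z4
    rw [l6] at z5
    have z6 : ∑ i ∈ Finset.range (nR S), xr (7 * b + 0) (2 * i + 1) ≤
        ∑ i ∈ Finset.range (nR S), xl (7 * b + 6) (2 * i + 1) := by
      refine Finset.sum_le_sum fun i hi => ?_
      rw [Finset.mem_range] at hi
      exact main_lt W (by omega) (by omega) (by omega)
    have z7 := mul_le_mul_of_nonneg_left z6 h4.le
    have z8 := ceV W (by omega) k6 rfl rfl rfl
    -- the other columns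
    have y1 := ceW W (by omega) k1 rfl
    have y2 := ceW W (by omega) k2 rfl
    have y3 := ceW W (by omega) k3 rfl
    have x1 := left_le W ht (m := m) (c := 7 * b + 1) (by omega) (by omega) (by omega)
      (by rw [k1]; rfl)
    have x2 := left_le W ht (m := m) (c := 7 * b + 2) (by omega) (by omega) (by omega)
      (by rw [k2]; rfl)
    have x3 := left_le W ht (m := m) (c := 7 * b + 3) (by omega) (by omega) (by omega)
      (by rw [k3]; rfl)
    rw [l1] at x1
    rw [l2] at x2
    rw [l3] at x3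
    simp only [Kind.h, Finset.sum_range_succ, Finset.sum_range_zero, Kind.sp, Kind.off]
      at z8 y1 y2 y3
    norm_num at z8 y1 y2 y3
    have c1 := locChain W (j := 0) (by norm_num) (7 * b + 1) 4 (by omega) (by
      intro k hk
      interval_cases k
      · rw [add_zero, k1]; decide
      · rw [add_assoc, k2]; decide
      · rw [add_assoc, k3]; simp [Kind.h]
      · rw [add_assoc, k4]; decide
      · rw [add_assoc, k5]; decide
      · rw [add_assoc, k6]; decide)
    have c3 := locChain W (j := 2) (by norm_num) (7 * b + 2) 3 (by omega) (by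
      intro k hk
      interval_cases k
      · rw [add_zero, k2]; decide
      · rw [add_assoc, k3]; simp [Kind.h]
      · rw [add_assoc, k4]; decide
      · rw [add_assoc, k5]; decide
      · rw [add_assoc, k6]; decide)
    have c5 := locChain W (j := 4) (by norm_num) (7 * b + 3) 2 (by omega) (by
      intro k hk
      interval_cases k
      · rw [add_zero, k3]; simp [Kind.h]
      · rw [add_assoc, k4]; decide
      · rw [add_assoc, k5]; decide
      · rw [add_assoc, k6]; decide)
    norm_num [add_assoc] at c1 c3 c5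
    refine ⟨z3, ?_⟩
    have d1 := mul_le_mul_of_nonneg_left c1 h4.le
    have d3 := mul_le_mul_of_nonneg_left c3 h4.le
    have d5 := mul_le_mul_of_nonneg_left c5 h4.le
    have fin : 0 ≤ t ^ 8 * (Zt t xl m a + Zt t xl m a' + Zt t xl m a'' + o) := by
      norm_num at z7 z5 z4 z1
      linarith only [z5, x1, x2, x3, z8, y1, y2, y3, d1, d3, d5, z7, z4, z1]
    by_contra hcon
    push Not at hcon
    have h9 : Zt t xl m a + Zt t xl m a' + Zt t xl m a'' + o < 0 := by linarith only [hcon]
    have := mul_neg_of_pos_of_neg h8 h9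
    linarith only [z1, z4, z5, z7, x1, x2, x3, z8, y1, y2, y3, d1, d3, d5, this]
  refine ⟨Zt t xl m, ?_, fun b a a' a'' o hb => (right b a a' a'' o hb).2,
    fun b a a' a'' o hb => (left b a a' a'' o hb).2, ?_⟩
  · obtain ⟨w1, w2, -, -⟩ := u3 0 hn
    exact le_antisymm (right _ _ _ _ _ w2).1 (left _ _ _ _ _ w1).1
  · intro b i j hb q1 q2 q3 q4
    obtain ⟨v1, v2, v3, v4⟩ := u2 b i j hb
    have hbM : 7 * b + 6 < G.M := by rw [hGM]; omega
    have hmb : m ≤ 7 * b := by rw [hm]; omega
    have hnR : nR S = 2 * S.n + 1 := rfl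
    obtain ⟨k0, l0⟩ := col b 0 (by norm_num) _ hb
    obtain ⟨k1, l1⟩ := col b 1 (by norm_num) _ hb
    obtain ⟨k3, l3⟩ := col b 3 (by norm_num) _ hb
    obtain ⟨k4, l4⟩ := col b 4 (by norm_num) _ hb
    change G.kd (7 * b + 0) = .pL true at k0
    change G.kd (7 * b + 1) = .pR true at k1
    change G.kd (7 * b + 3) = .pL false at k3
    change G.kd (7 * b + 4) = .pR false at k4
    change G.l (7 * b + 0) = 2 * i + 1 at l0
    change G.l (7 * b + 1) = 2 * j + 1 at l1
    change G.l (7 * b + 3) = 2 * i + 2 at l3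
    change G.l (7 * b + 4) = 2 * j + 2 at l4
    have x0 := right_le W ht (m := m) (c := 7 * b + 0) (by omega) (by omega) (by omega)
      (by rw [k0]; rfl)
    have x1 := right_le W ht (m := m) (c := 7 * b + 1) (by omega) (by omega) (by omega)
      (by rw [k1]; rfl)
    have x3 := right_le W ht (m := m) (c := 7 * b + 3) (by omega) (by omega) (by omega)
      (by rw [k3]; rfl)
    have x4 := right_le W ht (m := m) (c := 7 * b + 4) (by omega) (by omega) (by omega)
      (by rw [k4]; rfl)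
    rw [l0] at x0
    rw [l1] at x1
    rw [l3] at x3
    rw [l4] at x4
    obtain ⟨r1, r2, r3⟩ := W.lever (7 * b + 0) (by omega) (by rw [k0]; rfl)
    obtain ⟨s1, s2, s3⟩ := W.lever (7 * b + 3) (by omega) (by rw [k3]; rfl)
    rw [k0] at r3
    rw [k3] at s3
    change 1 / 4 * (1 + t ^ 6) * (Y (7 * b + 0) + Y (7 * b + 1)) +
      2 * 1 * t ^ 3 * (Y (7 * b + 0) * Y (7 * b + 1)) ≤ 0 at r3
    change 1 / 4 * (1 + t ^ 6) * (Y (7 * b + 3) + Y (7 * b + 4)) +
      2 * (-1) * t ^ 3 * (Y (7 * b + 3) * Y (7 * b + 4)) ≤ 0 at s3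
    have hsm : ∀ z : ℝ, |z| ≤ 1 → |t ^ 8 * z| ≤ t ^ 3 / 64 := by
      intro z hz
      rw [abs_mul, abs_of_pos h8]
      have h5 : t ^ 5 ≤ 1 / 64 := by
        have : t ^ 5 ≤ (1 / 64) ^ 5 := pow_le_pow_left₀ ht.le (ht1.trans (by norm_num)) 5
        linarith only [this, (by norm_num : ((1 : ℝ) / 64) ^ 5 ≤ 1 / 64)]
      have e : t ^ 8 = t ^ 5 * t ^ 3 := by ring
      have h3 : 0 < t ^ 3 := by positivity
      have h6 : t ^ 8 ≤ 1 / 64 * t ^ 3 := by
        rw [e]
        exact mul_le_mul_of_nonneg_right h5 h3.le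
      have h7 : t ^ 8 * |z| ≤ t ^ 8 * 1 := mul_le_mul_of_nonneg_left hz h8.le
      linarith only [h6, h7]
    have f1 := lever_mono ht ht1 (by norm_num) x0 x1 (hsm _ q2) r1 r3
    have f2 := lever_mono ht ht1 (by norm_num) x3 x4 (hsm _ q4) s1 s3
    have g1 := eps_of ht f1
    have g2 := eps_of ht f2
    constructor <;> linarith only [g1, g2]

end Pool.Agent.Helper2_Pak.H73
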